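import Pool.Agent.Helper5.PQ.Stm

/-!
# Project PQ, package ENC: the encoding
-/

set_option autoImplicit false

namespace Pool.Agent.Helper36.PQ

open Finset Classical Pool.Agent.Helper5.RD Pool.Agent.Helper5.PQ

noncomputable section

/-- The set of the `q ∈ Q` which divide `a` with the right parity. -/
def tset (Q : Finset ℕ) (c : ℕ → ℕ) (a : ℕ) : Finset ℕ :=
  Q.filter (fun q => q ∣ a ∧ (a.factorization q + c q) % 2 = 1)

theorem prod_dvd {Q : Finset ℕ} (hQ : ∀ q ∈ Q, q.Prime) (c : ℕ → ℕ) (a : ℕ) :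
    ∏ q ∈ tset Q c a, q ∣ a := by
  refine Finset.prod_primes_dvd a (fun q hq => ?_) (fun q hq => ?_)
  · exact (hQ q (Finset.mem_filter.1 hq).1).prime
  · exact (Finset.mem_filter.1 hq).2.1

/-- The code of `a`. -/
def enc (Q : Finset ℕ) (c : ℕ → ℕ) (a : ℕ) : ℕ × Finset ℕ :=
  (a / ∏ q ∈ tset Q c a, q, tset Q c a)

theorem enc_prod {Q : Finset ℕ} (hQ : ∀ q ∈ Q, q.Prime) (c : ℕ → ℕ) (a : ℕ) :
    (enc Q c a).1 * ∏ q ∈ (enc Q c a).2, q = a :=
  Nat.div_mul_cancel (prod_dvd hQ c a)

theorem tset_mul {Q : Finset ℕ} (hQ : ∀ q ∈ Q, q.Prime) {c : ℕ → ℕ} {a q : ℕ} (ha : a ≠ 0)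
    (hq : q ∈ Q) (hc : a.factorization q % 2 = c q) (hc2 : c q < 2) :
    q ∉ tset Q c a ∧ tset Q c (q * a) = insert q (tset Q c a) := by
  have hqp := hQ q hq
  have hfac : (q * a).factorization = q.factorization + a.factorization :=
    Nat.factorization_mul hqp.ne_zero ha
  constructor
  · intro h
    have h1 := (Finset.mem_filter.1 h).2.2
    omega
  · ext p
    simp only [tset, Finset.mem_filter, Finset.mem_insert]
    by_cases hpq : p = q
    · subst hpq
      have h1 : (p * a).factorization p = a.factorization p + 1 := by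
        rw [hfac, Finsupp.add_apply, hqp.factorization, Finsupp.single_eq_same]
        omega
      simp only [true_or, iff_true]
      refine ⟨hq, Dvd.intro a rfl, ?_⟩
      rw [h1]
      omega
    · simp only [hpq, false_or]
      constructor
      · rintro ⟨hpQ, hdiv, hpar⟩
        have hpp := hQ p hpQ
        have h1 : (q * a).factorization p = a.factorization p := by
          rw [hfac, Finsupp.add_apply, hqp.factorization, Finsupp.single_eq_of_ne hpq, zero_add]
        rw [h1] at hpar
        refine ⟨hpQ, ?_, hpar⟩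
        rcases (hpp.dvd_mul).1 hdiv with h2 | h2
        · exact absurd ((Nat.prime_dvd_prime_iff_eq hpp hqp).1 h2) hpq
        · exact h2
      · rintro ⟨hpQ, hdiv, hpar⟩
        have h1 : (q * a).factorization p = a.factorization p := by
          rw [hfac, Finsupp.add_apply, hqp.factorization, Finsupp.single_eq_of_ne hpq, zero_add]
        rw [h1]
        exact ⟨hpQ, Dvd.dvd.mul_left hdiv q, hpar⟩

theorem enc_mul {Q : Finset ℕ} (hQ : ∀ q ∈ Q, q.Prime) {c : ℕ → ℕ} {a q : ℕ} (ha : a ≠ 0)
    (hq : q ∈ Q) (hc : a.factorization q % 2 = c q) (hc2 : c q < 2) :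
    q ∉ (enc Q c a).2 ∧ ((enc Q c a).1, insert q (enc Q c a).2) = enc Q c (q * a) := by
  obtain ⟨h1, h2⟩ := tset_mul hQ ha hq hc hc2
  refine ⟨h1, ?_⟩
  unfold enc
  rw [h2]
  refine Prod.ext ?_ rfl
  change a / ∏ q ∈ tset Q c a, q = q * a / ∏ q ∈ insert q (tset Q c a), q
  rw [Finset.prod_insert h1, Nat.mul_div_mul_left _ _ (hQ q hq).pos]

theorem p_ENC : S_ENC := by
  intro A Q δ hA hQ hcard
  -- the parities
  have hpar : ∀ q : ℕ, ∃ c : ℕ, c < 2 ∧ (A.filter (fun a => q * a ∈ A)).card ≤
      2 * (A.filter (fun a => q * a ∈ A ∧ a.factorization q % 2 = c)).card := by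
    intro q
    have h1 : (A.filter (fun a => q * a ∈ A)).card =
        (A.filter (fun a => q * a ∈ A ∧ a.factorization q % 2 = 0)).card +
        (A.filter (fun a => q * a ∈ A ∧ a.factorization q % 2 = 1)).card := by
      rw [← Finset.card_union_of_disjoint]
      · congr 1
        ext a
        simp only [Finset.mem_filter, Finset.mem_union]
        constructor
        · rintro ⟨h2, h3⟩
          rcases Nat.mod_two_eq_zero_or_one (a.factorization q) with h4 | h4
          · exact Or.inl ⟨h2, h3, h4⟩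
          · exact Or.inr ⟨h2, h3, h4⟩
        · rintro (⟨h2, h3, -⟩ | ⟨h2, h3, -⟩)
          · exact ⟨h2, h3⟩
          · exact ⟨h2, h3⟩
      · rw [Finset.disjoint_left]
        intro a h2 h3
        have h4 := (Finset.mem_filter.1 h2).2.2
        have h5 := (Finset.mem_filter.1 h3).2.2
        omega
    by_cases h2 : (A.filter (fun a => q * a ∈ A ∧ a.factorization q % 2 = 1)).card ≤
        (A.filter (fun a => q * a ∈ A ∧ a.factorization q % 2 = 0)).card
    · exact ⟨0, by omega, by omega⟩
    · exact ⟨1, by omega, by omega⟩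
  choose c hc2 hc using hpar
  have hinj : Set.InjOn (enc Q c) (A : Set ℕ) := by
    intro a _ b _ hab
    rw [← enc_prod hQ c a, ← enc_prod hQ c b, hab]
  refine ⟨A.image (enc Q c), Finset.card_image_of_injOn hinj, ?_, ?_, ?_⟩
  · intro z hz
    obtain ⟨a, ha, rfl⟩ := Finset.mem_image.1 hz
    refine ⟨Finset.filter_subset _ _, ?_, ?_⟩
    · intro h0
      have h1 := enc_prod hQ c a
      rw [h0, zero_mul] at h1
      exact hA (h1 ▸ ha)
    · rw [enc_prod hQ c a]
      exact ha
  · intro z hz w hw hzw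
    obtain ⟨a, ha, rfl⟩ := Finset.mem_image.1 (Finset.mem_coe.1 hz)
    obtain ⟨b, hb, rfl⟩ := Finset.mem_image.1 (Finset.mem_coe.1 hw)
    have h1 : a = b := by
      have h2 := hzw
      simp only [enc_prod hQ c] at h2
      exact h2
    rw [h1]
  · intro q hq
    have hsub : (A.filter (fun a => q * a ∈ A ∧ a.factorization q % 2 = c q)).image (enc Q c) ⊆
        (A.image (enc Q c)).filter
          (fun z => q ∉ z.2 ∧ (z.1, insert q z.2) ∈ A.image (enc Q c)) := by
      intro z hz
      obtain ⟨a, ha, rfl⟩ := Finset.mem_image.1 hz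
      obtain ⟨haA, hqa, hpa⟩ := Finset.mem_filter.1 ha
      have ha0 : a ≠ 0 := fun h => hA (h ▸ haA)
      obtain ⟨h1, h2⟩ := enc_mul hQ ha0 hq hpa (hc2 q)
      refine Finset.mem_filter.2 ⟨Finset.mem_image_of_mem _ haA, h1, ?_⟩
      rw [h2]
      exact Finset.mem_image_of_mem _ hqa
    have hle := Finset.card_le_card hsub
    rw [Finset.card_image_of_injOn (hinj.mono (Finset.coe_subset.2 (Finset.filter_subset _ _)))]
      at hle
    have h3 : (A.filter (fun a => q * a ∈ A)).card ≤ 2 * Edg (A.image (enc Q c)) q :=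
      (hc q).trans (Nat.mul_le_mul_left 2 hle)
    have h4 : ((A.filter (fun a => q * a ∈ A)).card : ℝ) ≤ 2 * (Edg (A.image (enc Q c)) q : ℝ) := by
      exact_mod_cast h3
    have h5 := hcard q hq
    linarith

end

end Pool.Agent.Helper36.PQ
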